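import Pool.Agent.X100.PB.Win
import Pool.Agent.X28.SP.Metric2

/-! Local densities for `κ_n e^(n t)`, and the result for almost every `t > 0`. -/

set_option autoImplicit false

open Finset Filter Topology MeasureTheory

namespace Pool.Agent.X100.PB
open Pool.Agent.H197R2.PG Pool.Agent.H357R2.SI Pool.Agent.X28.SP

/-- the event for the place `m` -/
def EM (κ : ℝ) (H n : ℕ) (ε : ℝ) (m : ℕ) : Set ℝ :=
  {t : ℝ | (m : ℝ) < κ * Real.exp (n * t) ∧ κ * Real.exp (n * t) < m + 1 ∧
    (1 - ε) ^ 2 * H ≤ n * t * #(hit0 H m)}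

/-- the event -/
def EE (κ : ℝ) (H n : ℕ) (ε : ℝ) : Set ℝ := ⋃ m : ℕ, EM κ H n ε m

lemma EE_meas (κ : ℝ) (H n : ℕ) (ε : ℝ) : MeasurableSet (EE κ H n ε) := by
  apply MeasurableSet.iUnion
  intro m
  have hc1 : Continuous fun t : ℝ => κ * Real.exp (n * t) := by fun_prop
  have hc2 : Continuous fun t : ℝ => (n : ℝ) * t * #(hit0 H m) := by fun_prop
  have e : EM κ H n ε m = {t : ℝ | (m : ℝ) < κ * Real.exp (n * t)} ∩
      ({t : ℝ | κ * Real.exp (n * t) < m + 1} ∩
        {t : ℝ | (1 - ε) ^ 2 * (H : ℝ) ≤ n * t * #(hit0 H m)}) := rfl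
  rw [e]
  exact (isOpen_lt continuous_const hc1).measurableSet.inter
    ((isOpen_lt hc1 continuous_const).measurableSet.inter
      (isClosed_le continuous_const hc2).measurableSet)

lemma window (κ s ε δ X : ℝ) (H n a w : ℕ) (hn : 0 < n) (hκ : 0 < κ) (hs : 0 < s)
    (hε1 : ε ≤ 1) (hX : X = κ * Real.exp (n * s)) (hXl : 0 < Real.log X)
    (hlog : (1 - ε) * Real.log X ≤ n * s)
    (h1 : X ≤ a) (h2 : (a : ℝ) + w + 1 ≤ 2 * X)
    (h3 : δ * X ≤ #((Ioc a (a + w)).filter fun m =>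
        (1 - ε) * H / Real.log X ≤ (#(hit0 H m) : ℝ))) :
    ENNReal.ofReal (δ / (2 * n)) ≤
      volume (EE κ H n ε ∩ Set.Ioo s (s + Real.log 2 / n)) := by
  have hnr : (0 : ℝ) < n := by exact_mod_cast hn
  have hX0 : 0 < X := by rw [hX]; positivity
  set G := (Ioc a (a + w)).filter fun m => (1 - ε) * H / Real.log X ≤ (#(hit0 H m) : ℝ) with hG
  let J : ℕ → Set ℝ := fun m => Set.Ioo (Real.log (m / κ) / n) (Real.log ((m + 1) / κ) / n)
  have hmem : ∀ m ∈ G, ∀ t ∈ J m, (m : ℝ) < κ * Real.exp (n * t) ∧ κ * Real.exp (n * t) < m + 1 := by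
    intro m hm t ht
    rw [hG, mem_filter, mem_Ioc] at hm
    have hm0 : (0 : ℝ) < m := by exact_mod_cast (by omega : 0 < m)
    obtain ⟨ht1, ht2⟩ := ht
    rw [div_lt_iff₀ hnr, mul_comm t] at ht1
    rw [lt_div_iff₀ hnr, mul_comm t] at ht2
    have e1 := Real.exp_lt_exp.2 ht1
    have e2 := Real.exp_lt_exp.2 ht2
    rw [Real.exp_log (by positivity)] at e1 e2
    rw [div_lt_iff₀ hκ] at e1
    rw [lt_div_iff₀ hκ] at e2
    constructor <;> linarith
  have hsub : (⋃ m ∈ G, J m) ⊆ EE κ H n ε ∩ Set.Ioo s (s + Real.log 2 / n) := by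
    intro t ht
    simp only [Set.mem_iUnion] at ht
    obtain ⟨m, hm, ht⟩ := ht
    obtain ⟨e1, e2⟩ := hmem m hm t ht
    rw [hG, mem_filter, mem_Ioc] at hm
    obtain ⟨⟨hm1, hm2⟩, hm3⟩ := hm
    have ha : (a : ℝ) < m := by exact_mod_cast hm1
    have hb : (m : ℝ) ≤ a + w := by exact_mod_cast hm2
    have hst : s < t := by
      have h4 : κ * Real.exp (n * s) < κ * Real.exp (n * t) := by rw [← hX]; linarith
      have h5 := Real.exp_lt_exp.1 (lt_of_mul_lt_mul_left h4 hκ.le)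
      exact lt_of_mul_lt_mul_left h5 hnr.le
    refine ⟨?_, hst, ?_⟩
    · unfold EE
      rw [Set.mem_iUnion]
      refine ⟨m, e1, e2, ?_⟩
      rw [div_le_iff₀ hXl] at hm3
      have h6 : (1 - ε) * ((1 - ε) * H) ≤ (1 - ε) * (#(hit0 H m) * Real.log X) :=
        mul_le_mul_of_nonneg_left hm3 (by linarith)
      have h7 : ((1 - ε) * Real.log X) * #(hit0 H m) ≤ n * s * #(hit0 H m) :=
        mul_le_mul_of_nonneg_right hlog (Nat.cast_nonneg _)
      have h8 : (n * s : ℝ) * #(hit0 H m) ≤ n * t * #(hit0 H m) := by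
        apply mul_le_mul_of_nonneg_right _ (Nat.cast_nonneg _)
        exact mul_le_mul_of_nonneg_left hst.le hnr.le
      linarith
    · have h4 : κ * Real.exp (n * t) < κ * Real.exp (n * s + Real.log 2) := by
        rw [Real.exp_add, Real.exp_log (by norm_num)]
        have : κ * (Real.exp (n * s) * 2) = 2 * X := by rw [hX]; ring
        linarith
      have h5 := Real.exp_lt_exp.1 (lt_of_mul_lt_mul_left h4 hκ.le)
      have h6 : (n : ℝ) * t < n * (s + Real.log 2 / n) := by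
        have : (n : ℝ) * (s + Real.log 2 / n) = n * s + Real.log 2 := by field_simp
        linarith
      exact lt_of_mul_lt_mul_left h6 hnr.le
  have hdisj : Set.PairwiseDisjoint (G : Set ℕ) J := by
    have key : ∀ m ∈ G, ∀ m' ∈ G, m < m' → Disjoint (J m) (J m') := by
      intro m hm m' hm' hlt
      rw [Set.disjoint_left]
      intro t h6 h7
      have e1 := (hmem m hm t h6).2
      have e2 := (hmem m' hm' t h7).1
      have : (m : ℝ) + 1 ≤ m' := by exact_mod_cast hlt
      linarith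
    intro m hm m' hm' hne
    rcases lt_or_gt_of_ne hne with h | h
    · exact key m hm m' hm' h
    · exact (key m' hm' m hm h).symm
  refine le_trans ?_ (measure_mono hsub)
  rw [measure_biUnion_finset hdisj (fun m _ => measurableSet_Ioo)]
  have hlen : ∀ m ∈ G, ENNReal.ofReal (1 / (2 * X * n)) ≤ volume (J m) := by
    intro m hm
    rw [hG, mem_filter, mem_Ioc] at hm
    obtain ⟨⟨hm1, hm2⟩, hm3⟩ := hm
    have hm0 : (0 : ℝ) < m := by exact_mod_cast (by omega : 0 < m)
    have hb : (m : ℝ) ≤ a + w := by exact_mod_cast hm2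
    simp only [J, Real.volume_Ioo]
    apply ENNReal.ofReal_le_ofReal
    rw [← sub_div, Real.log_div (by positivity) hκ.ne', Real.log_div hm0.ne' hκ.ne']
    have e1 : Real.log (m + 1) - Real.log κ - (Real.log m - Real.log κ) =
        Real.log ((m + 1) / m) := by
      rw [Real.log_div (by positivity) hm0.ne']; ring
    rw [e1]
    have e2 := Real.one_sub_inv_le_log_of_pos (show 0 < ((m : ℝ) + 1) / m by positivity)
    have e3 : 1 - (((m : ℝ) + 1) / m)⁻¹ = 1 / (m + 1) := by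
      field_simp
      ring
    rw [e3] at e2
    have e4 : 1 / (2 * X) ≤ 1 / ((m : ℝ) + 1) := one_div_le_one_div_of_le (by positivity) (by linarith)
    calc 1 / (2 * X * n) = (1 / (2 * X)) / n := by rw [div_div]
      _ ≤ _ := div_le_div_of_nonneg_right (e4.trans e2) hnr.le
  calc ENNReal.ofReal (δ / (2 * n)) ≤ ENNReal.ofReal (#G * (1 / (2 * X * n))) := by
        apply ENNReal.ofReal_le_ofReal
        have : δ / (2 * n) = δ * X * (1 / (2 * X * n)) := by field_simp
        rw [this]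
        exact mul_le_mul_of_nonneg_right h3 (by positivity)
    _ = #G • ENNReal.ofReal (1 / (2 * X * n)) := by
        rw [ENNReal.ofReal_mul (Nat.cast_nonneg _), ENNReal.ofReal_natCast, nsmul_eq_mul]
    _ = ∑ _m ∈ G, ENNReal.ofReal (1 / (2 * X * n)) := by rw [Finset.sum_const]
    _ ≤ _ := Finset.sum_le_sum hlen

/-- local densities -/
theorem local_dens : ∃ c : ℝ, 0 < c ∧ c ≤ 1 ∧ ∀ ε : ℝ, 0 < ε → ε ≤ 1 → ∀ (κ : ℕ → ℝ) (H : ℕ → ℕ),
    (∀ n, 0 < κ n) → Tendsto (fun n : ℕ => Real.log (κ n) / n) atTop (𝓝 0) →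
    Tendsto (fun n : ℕ => (H n : ℝ) / n) atTop atTop → (∀ᶠ n : ℕ in atTop, H n ≤ n ^ 2) →
    ∀ u v : ℝ, 0 < u → u < v → v ≤ 2 * u → ∀ᶠ n : ℕ in atTop,
      c * ε ^ 2 / 2 * (v - u) ≤ volume.real (EE (κ n) (H n) n ε ∩ Set.Icc u v) := by
  obtain ⟨c, hc, hc1, hwin⟩ := win
  refine ⟨c, hc, hc1, fun ε hε hε1 κ H hκ hκl hH1 hH2 u v hu huv hv2 => ?_⟩
  obtain ⟨X₁, hX₁⟩ := eventually_atTop.1 (hwin ε hε hε1)
  have hvu : 0 < v - u := by linarith
  have hl2 : 0 < Real.log 2 := Real.log_pos (by norm_num)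
  have hl2u : Real.log 2 < 0.7 := by
    have := Real.log_two_lt_d9
    linarith
  have ev1 : ∀ᶠ n : ℕ in atTop, |Real.log (κ n) / n| < ε * u / 2 := by
    have h := hκl.abs
    rw [abs_zero] at h
    exact h.eventually_lt_const (by positivity)
  have hcast : Tendsto (fun n : ℕ => (n : ℝ)) atTop atTop := tendsto_natCast_atTop_atTop
  have ev2 : ∀ᶠ n : ℕ in atTop, X₁ ≤ Real.exp (n * (u / 2)) := by
    have h : Tendsto (fun n : ℕ => Real.exp (n * (u / 2))) atTop atTop :=
      Real.tendsto_exp_atTop.comp (hcast.atTop_mul_const (by positivity))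
    exact h.eventually_ge_atTop _
  filter_upwards [ev1, ev2, hH1.eventually_ge_atTop (2 * v), hH2, eventually_ge_atTop 1,
    hcast.eventually_ge_atTop (8 / u ^ 3), hcast.eventually_ge_atTop (4 / (v - u))] with
    n b1 b2 b3 b4 b5 b6 b7
  have hn0 : 0 < n := b5
  have hnr : (0 : ℝ) < n := by exact_mod_cast hn0
  have hκn := hκ n
  have hlk : |Real.log (κ n)| ≤ ε * u / 2 * n := by
    rw [abs_div, abs_of_pos hnr, div_lt_iff₀ hnr] at b1
    exact b1.le
  have hlk1 : Real.log (κ n) ≤ ε * u / 2 * n := (le_abs_self _).trans hlk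
  have hlk2 : -(ε * u / 2 * n) ≤ Real.log (κ n) := (abs_le.1 hlk).1
  set L : ℝ := Real.log 2 / n with hL
  have hL0 : 0 < L := by positivity
  set I : ℕ := ⌊(v - u) / L⌋₊ with hI
  have hIle : (I : ℝ) * L ≤ v - u := by
    have h := Nat.floor_le (show 0 ≤ (v - u) / L by positivity)
    rw [← hI] at h
    rwa [le_div_iff₀ hL0] at h
  have hIge : (v - u) / L - 1 < I := by
    have h := Nat.lt_floor_add_one ((v - u) / L)
    rw [← hI] at h
    linarith
  have hwin1 : ∀ i ∈ range I, ENNReal.ofReal (c * ε ^ 2 / (2 * n)) ≤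
      volume (EE (κ n) (H n) n ε ∩ Set.Ioo (u + i * L) (u + i * L + L)) := by
    intro i hi
    rw [mem_range] at hi
    have hir : (i : ℝ) + 1 ≤ I := by exact_mod_cast hi
    set s : ℝ := u + i * L with hs
    have hsu : u ≤ s := by
      have : 0 ≤ (i : ℝ) * L := by positivity
      linarith
    have hsv : s ≤ v := by nlinarith
    have hs0 : 0 < s := by linarith
    set X : ℝ := κ n * Real.exp (n * s) with hX
    have hlX : Real.log X = n * s + Real.log (κ n) := by
      rw [hX, Real.log_mul hκn.ne' (Real.exp_ne_zero _), Real.log_exp]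
      ring
    have hnu : (n : ℝ) * u ≤ n * s := mul_le_mul_of_nonneg_left hsu hnr.le
    have hnv : (n : ℝ) * s ≤ n * v := mul_le_mul_of_nonneg_left hsv hnr.le
    have hnu0 : 0 < (n : ℝ) * u := by positivity
    have hεu : ε * u / 2 * n ≤ n * u / 2 := by nlinarith
    have hlow : n * u / 2 ≤ Real.log X := by rw [hlX]; linarith
    have hXX : X₁ ≤ X := by
      have h1 : Real.exp (n * (u / 2)) ≤ X := by
        rw [← Real.exp_log (show 0 < X by positivity)]
        apply Real.exp_le_exp.2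
        linarith
      linarith
    have hHl : Real.log X ≤ H n := by
      have h1 : 2 * v * n ≤ H n := by rwa [le_div_iff₀ hnr] at b3
      rw [hlX]
      nlinarith
    have hHu : (H n : ℝ) ≤ Real.log X ^ 3 := by
      have h1 : (H n : ℝ) ≤ (n : ℝ) ^ 2 := by exact_mod_cast b4
      have h2 : (n * u / 2) ^ 3 ≤ Real.log X ^ 3 := pow_le_pow_left₀ (by positivity) hlow 3
      have h3 : (n : ℝ) ^ 2 ≤ (n * u / 2) ^ 3 := by
        rw [div_le_iff₀ (by positivity)] at b6
        have e : (n * u / 2) ^ 3 = (n : ℝ) ^ 2 * (n * u ^ 3 / 8) := by ring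
        rw [e]
        have h4 : 1 ≤ (n : ℝ) * u ^ 3 / 8 := by linarith
        nlinarith [sq_nonneg (n : ℝ)]
      linarith
    obtain ⟨a, w, h1, h2, h3⟩ := hX₁ X hXX (H n) hHl hHu
    refine window (κ n) s ε (c * ε ^ 2) X (H n) n a w hn0 hκn hs0 hε1 hX (by linarith) ?_ h1 h2 h3
    rw [hlX]
    have h4 : ε * u / 2 * n ≤ ε * (n * s) := by nlinarith
    nlinarith
  have hsubset : (⋃ i ∈ range I, (EE (κ n) (H n) n ε ∩ Set.Ioo (u + i * L) (u + i * L + L))) ⊆
      EE (κ n) (H n) n ε ∩ Set.Icc u v := by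
    intro t ht
    simp only [Set.mem_iUnion] at ht
    obtain ⟨i, hi, h1, h2, h3⟩ := ht
    rw [mem_range] at hi
    have hir : (i : ℝ) + 1 ≤ I := by exact_mod_cast hi
    refine ⟨h1, ?_, ?_⟩
    · have : 0 ≤ (i : ℝ) * L := by positivity
      linarith
    · nlinarith
  have hdisj : Set.PairwiseDisjoint ((range I : Finset ℕ) : Set ℕ)
      (fun i : ℕ => EE (κ n) (H n) n ε ∩ Set.Ioo (u + i * L) (u + i * L + L)) := by
    have key : ∀ i i' : ℕ, i < i' → Disjoint
        (EE (κ n) (H n) n ε ∩ Set.Ioo (u + i * L) (u + i * L + L))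
        (EE (κ n) (H n) n ε ∩ Set.Ioo (u + i' * L) (u + i' * L + L)) := by
      intro i i' hlt
      rw [Set.disjoint_left]
      rintro t ⟨-, -, h6⟩ ⟨-, h7, -⟩
      have : (i : ℝ) + 1 ≤ i' := by exact_mod_cast hlt
      nlinarith
    intro i _ i' _ hne
    rcases lt_or_gt_of_ne hne with h | h
    · exact key i i' h
    · exact (key i' i h).symm
  have hvol : ENNReal.ofReal (c * ε ^ 2 / 2 * (v - u)) ≤
      volume (EE (κ n) (H n) n ε ∩ Set.Icc u v) := by
    refine le_trans ?_ (measure_mono hsubset)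
    rw [measure_biUnion_finset hdisj
      (fun i _ => (EE_meas _ _ _ _).inter measurableSet_Ioo)]
    calc ENNReal.ofReal (c * ε ^ 2 / 2 * (v - u)) ≤ ENNReal.ofReal (I * (c * ε ^ 2 / (2 * n))) := by
          apply ENNReal.ofReal_le_ofReal
          have h1 : (v - u) * n ≤ I := by
            have h2 : (v - u) / L = (v - u) * n / Real.log 2 := by rw [hL]; field_simp
            rw [h2] at hIge
            have h3 : (v - u) * n / 0.7 ≤ (v - u) * n / Real.log 2 :=
              div_le_div_of_nonneg_left (by positivity) hl2 hl2u.le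
            have h4 : (4 : ℝ) ≤ (v - u) * n := by
              rw [div_le_iff₀ hvu] at b7
              linarith
            have h5 : (v - u) * n / 0.7 = (v - u) * n * (10 / 7) := by ring
            rw [h5] at h3
            linarith
          have h2 : c * ε ^ 2 / 2 * (v - u) = (v - u) * n * (c * ε ^ 2 / (2 * n)) := by
            field_simp
          rw [h2]
          exact mul_le_mul_of_nonneg_right h1 (by positivity)
      _ = I • ENNReal.ofReal (c * ε ^ 2 / (2 * n)) := by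
          rw [ENNReal.ofReal_mul (Nat.cast_nonneg _), ENNReal.ofReal_natCast, nsmul_eq_mul]
      _ = ∑ _i ∈ range I, ENNReal.ofReal (c * ε ^ 2 / (2 * n)) := by
          rw [Finset.sum_const, card_range]
      _ ≤ _ := Finset.sum_le_sum hwin1
  have hInt : volume (Set.Icc u v) ≠ ⊤ := by
    rw [Real.volume_Icc]; exact ENNReal.ofReal_ne_top
  exact (ENNReal.ofReal_le_iff_le_toReal (ne_top_of_le_ne_top hInt
    (measure_mono Set.inter_subset_right))).1 hvol

open Classical in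
/-- almost every `t > 0` -/
theorem ae_t : ∃ c : ℝ, 0 < c ∧ ∀ ε : ℝ, 0 < ε → ε ≤ 1 → ∀ (κ : ℕ → ℝ) (H : ℕ → ℕ),
    (∀ n, 0 < κ n) → Tendsto (fun n : ℕ => Real.log (κ n) / n) atTop (𝓝 0) →
    Tendsto (fun n : ℕ => (H n : ℝ) / n) atTop atTop → (∀ᶠ n : ℕ in atTop, H n ≤ n ^ 2) →
    ∀ᵐ t : ℝ, 0 < t → ∃ᶠ N : ℕ in atTop, c * ε ^ 2 * N ≤
      (((Finset.range N).filter (fun n : ℕ => t ∈ EE (κ n) (H n) n ε)).card : ℝ) := by
  obtain ⟨c, hc, hc1, h⟩ := local_dens
  refine ⟨c / 4, by positivity, fun ε hε hε1 κ H hκ hκl hH1 hH2 => ?_⟩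
  have h1 := metric2 (fun n => EE (κ n) (H n) n ε) (fun n => EE_meas _ _ _ _) (c * ε ^ 2 / 2)
    (by positivity) (by nlinarith [mul_pos hε hε]) (h ε hε hε1 κ H hκ hκl hH1 hH2)
  filter_upwards [h1] with t ht ht0
  refine (ht ht0).mono fun N hN => ?_
  refine le_trans (le_of_eq ?_) hN
  ring

end Pool.Agent.X100.PB
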