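import Pool.Agent.X28.SP.Window

/-! Primes in most short intervals of one dyadic window, with the expected number of primes up to
`1 - ε`. -/

set_option autoImplicit false

open Finset Filter Topology MeasureTheory

namespace Pool.Agent.X100.PB
open Pool.Agent.H197R2.PG Pool.Agent.H357R2.SI Pool.Agent.X28.SP

lemma ev_pow (B : ℝ) (k : ℕ) : ∀ᶠ X : ℝ in atTop, B * Real.log X ^ k ≤ X := by
  have h := (Real.isLittleO_pow_log_id_atTop (n := k)).def (c := 1 / (|B| + 1)) (by positivity)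
  filter_upwards [h, eventually_ge_atTop (1 : ℝ)] with X hX h1
  have hl : 0 ≤ Real.log X := Real.log_nonneg h1
  simp only [id, Real.norm_eq_abs] at hX
  rw [abs_of_nonneg (pow_nonneg hl k), abs_of_nonneg (show (0 : ℝ) ≤ X by linarith)] at hX
  have h2 : B * Real.log X ^ k ≤ (|B| + 1) * Real.log X ^ k := by
    apply mul_le_mul_of_nonneg_right _ (by positivity)
    have := le_abs_self B
    linarith
  have h3 : (|B| + 1) * Real.log X ^ k ≤ (|B| + 1) * (1 / (|B| + 1) * X) :=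
    mul_le_mul_of_nonneg_left hX (by positivity)
  have h4 : (|B| + 1) * (1 / (|B| + 1) * X) = X := by field_simp
  linarith

/-- in a dyadic window there are many places followed by at least `(1 - ε)` times the expected number
of primes -/
theorem win : ∃ c : ℝ, 0 < c ∧ c ≤ 1 ∧ ∀ ε : ℝ, 0 < ε → ε ≤ 1 → ∀ᶠ X : ℝ in atTop, ∀ H : ℕ,
    Real.log X ≤ H → (H : ℝ) ≤ Real.log X ^ 3 → ∃ a w : ℕ, X ≤ a ∧ (a : ℝ) + w + 1 ≤ 2 * X ∧
      c * ε ^ 2 * X ≤ #((Ioc a (a + w)).filter fun m =>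
        (1 - ε) * H / Real.log X ≤ (#(hit0 H m) : ℝ)) := by
  obtain ⟨C, hC, u0, hB⟩ := blockI
  refine ⟨1 / (4 * (1 + 4 * C)), by positivity, ?_, ?_⟩
  · rw [div_le_one (by positivity)]
    linarith
  intro ε hε hε1
  obtain ⟨X₀, hX₀, hpc⟩ := pc_window_lower (ε / 100) (by positivity) (by linarith)
  have hlog : ∀ᶠ X : ℝ in atTop, 8 * Real.log 2 / ε + 1 ≤ Real.log X :=
    Real.tendsto_log_atTop.eventually_ge_atTop _
  filter_upwards [hlog, ev_pow (2 * 2 ^ 16) 48, ev_pow (40 / ε) 3, eventually_ge_atTop (X₀ + 3 : ℝ),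
    eventually_ge_atTop (u0 + 5 : ℝ), eventually_ge_atTop (100 / ε), eventually_ge_atTop (16 : ℝ)] with
    X b1 b2 b3 b4 b5 b6 b7 H hHl hHu
  set Λ : ℝ := Real.log X with hΛ
  have hX0 : 0 < X := by linarith
  have hl2 : 0 < Real.log 2 := Real.log_pos (by norm_num)
  have hΛ1 : 1 ≤ Λ := by
    have : 0 ≤ 8 * Real.log 2 / ε := by positivity
    linarith
  have hΛ0 : 0 < Λ := by linarith
  have hH0 : (0 : ℝ) < H := by linarith
  have hl2e : Real.log 2 ≤ ε / 8 * Λ := by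
    have h1 : 8 * Real.log 2 / ε ≤ Λ := by linarith
    rw [div_le_iff₀ hε] at h1
    linarith
  have hHX : (H : ℝ) ≤ ε / 40 * X := by
    have h1 : 40 / ε * (H : ℝ) ≤ X := by
      refine le_trans (mul_le_mul_of_nonneg_left hHu (by positivity)) b3
    rw [div_mul_eq_mul_div, div_le_iff₀ hε] at h1
    linarith
  set a : ℕ := ⌈X⌉₊ with ha
  set w : ℕ := ⌊X⌋₊ - 2 with hw
  have ha1 : X ≤ a := Nat.le_ceil _
  have ha2 : (a : ℝ) < X + 1 := Nat.ceil_lt_add_one hX0.le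
  have hfl : 16 ≤ ⌊X⌋₊ := Nat.le_floor (by exact_mod_cast b7)
  have hw1 : (w : ℝ) = (⌊X⌋₊ : ℝ) - 2 := by
    rw [hw, Nat.cast_sub (by omega)]
    norm_num
  have hfl1 : (⌊X⌋₊ : ℝ) ≤ X := Nat.floor_le hX0.le
  have hfl2 : X < (⌊X⌋₊ : ℝ) + 1 := Nat.lt_floor_add_one X
  have hwl : X - 3 ≤ w := by rw [hw1]; linarith
  have hwu : (w : ℝ) ≤ X - 2 := by rw [hw1]; linarith
  have hw0 : (0 : ℝ) < w := by linarith
  have hu0w : u0 ≤ w := by
    have : (u0 : ℝ) ≤ w := by linarith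
    exact_mod_cast this
  have hHw : 2 * (H : ℝ) ≤ (w : ℝ) ^ (1 / 16 : ℝ) := by
    have h1 : (2 * Λ ^ 3) ^ 16 ≤ w := by
      have : (2 * Λ ^ 3) ^ 16 = 2 ^ 16 * Λ ^ 48 := by ring
      rw [this]
      linarith
    have h2 : ((2 * Λ ^ 3) ^ 16) ^ (1 / 16 : ℝ) ≤ (w : ℝ) ^ (1 / 16 : ℝ) :=
      Real.rpow_le_rpow (by positivity) h1 (by norm_num)
    rw [← Real.rpow_natCast, ← Real.rpow_mul (by positivity)] at h2
    norm_num at h2
    norm_num
    linarith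
  have hHwn : H ≤ w := by
    have : (H : ℝ) ≤ w := by nlinarith
    exact_mod_cast this
  refine ⟨a, w, ha1, by linarith, ?_⟩
  -- logarithms
  have hlogw : Λ / 2 ≤ Real.log w := by
    have h1 : √X ≤ w := by
      have h3 : √X * √X = X := Real.mul_self_sqrt hX0.le
      have h4 : 4 ≤ √X := Real.le_sqrt_of_sq_le (by linarith)
      nlinarith
    have h2 := Real.log_le_log (Real.sqrt_pos.2 hX0) h1
    rwa [Real.log_sqrt hX0.le] at h2
  have hlogw0 : 0 < Real.log w := by linarith [half_pos hΛ0]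
  set b : ℕ := a + H with hb
  have hbr : (b : ℝ) = a + H := by rw [hb]; push_cast; ring
  have hbu : (b : ℝ) ≤ 2 * X := by
    rw [hbr]
    nlinarith
  have hbX : X₀ ≤ b := by
    have : (X₀ : ℝ) ≤ b := by
      rw [hbr]
      linarith
    exact_mod_cast this
  have hb1 : (1 : ℝ) < b := by
    have : (3 : ℝ) ≤ b := by exact_mod_cast hX₀.trans hbX
    linarith
  have hlogb : Real.log b ≤ (1 + ε / 8) * Λ := by
    have h2 := Real.log_le_log (by linarith) hbu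
    rw [Real.log_mul (by norm_num) hX0.ne'] at h2
    linarith
  have hlogb0 : 0 < Real.log b := Real.log_pos hb1
  -- the primes
  have hwb : w - H ≤ b := by
    have h1 : (w : ℝ) ≤ b := by
      rw [hbr]
      linarith
    have : w ≤ b := by exact_mod_cast h1
    omega
  have hpcb := hpc b (w - H) hbX hwb
  have hbw : b + (w - H) = a + w := by omega
  rw [hbw, Nat.cast_sub hHwn] at hpcb
  have hpc1 : (1 - ε / 2) * X / Λ ≤ (pc b (a + w) : ℝ) := by
    rw [div_le_iff₀ hΛ0]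
    have h3 : (pc b (a + w) : ℝ) * Real.log b ≤ pc b (a + w) * ((1 + ε / 8) * Λ) :=
      mul_le_mul_of_nonneg_left hlogb (Nat.cast_nonneg _)
    have h6 : 100 / ε ≤ X := b6
    rw [div_le_iff₀ hε] at h6
    have h4 : (1 - ε / 5) * X ≤ (w : ℝ) - H - 5 * (ε / 100) * b := by nlinarith
    have h5 : (1 - ε / 5) * X ≤ (1 + ε / 8) * (pc b (a + w) * Λ) := by linarith
    have h7 : (1 + ε / 8) * ((1 - ε / 2) * X) ≤ (1 - ε / 5) * X := by
      nlinarith [mul_pos hε hX0, mul_pos (mul_pos hε hε) hX0]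
    exact le_of_mul_le_mul_left (h7.trans h5) (by positivity)
  -- moments
  set τ : ℝ := H / Λ with hτ
  have hτ1 : 1 ≤ τ := by rw [hτ, one_le_div hΛ0]; exact hHl
  have hτ0 : 0 < τ := by linarith
  have hτe : (1 - ε) * (H : ℝ) / Λ = (1 - ε) * τ := by rw [hτ, mul_div_assoc]
  rw [hτe]
  set G := (Ioc a (a + w)).filter fun m => (1 - ε) * τ ≤ (#(hit0 H m) : ℝ) with hG
  have hfirst : (1 - ε / 2) * τ * X ≤ ∑ m ∈ Ioc a (a + w), (#(hit0 H m) : ℝ) := by
    have h1 : ((H * pc (a + H) (a + w) : ℕ) : ℝ) ≤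
        ((∑ m ∈ Ioc a (a + w), #(hit0 H m) : ℕ) : ℝ) := by exact_mod_cast firstI a H w
    push_cast at h1
    refine le_trans ?_ h1
    have h2 : (H : ℝ) * ((1 - ε / 2) * X / Λ) ≤ H * pc b (a + w) :=
      mul_le_mul_of_nonneg_left hpc1 hH0.le
    have h3 : (1 - ε / 2) * τ * X = H * ((1 - ε / 2) * X / Λ) := by rw [hτ]; field_simp
    rw [h3]
    exact h2
  have hlow : ε / 2 * τ * X ≤ ∑ m ∈ G, (#(hit0 H m) : ℝ) := by
    have h1 := sum_filter_add_sum_filter_not (Ioc a (a + w)) (fun m => (1 - ε) * τ ≤ (#(hit0 H m) : ℝ))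
      (fun m => (#(hit0 H m) : ℝ))
    have h2 : ∑ m ∈ (Ioc a (a + w)).filter (fun m => ¬ (1 - ε) * τ ≤ (#(hit0 H m) : ℝ)),
        (#(hit0 H m) : ℝ) ≤ w * ((1 - ε) * τ) := by
      have h3 : ∑ m ∈ (Ioc a (a + w)).filter (fun m => ¬ (1 - ε) * τ ≤ (#(hit0 H m) : ℝ)),
          (#(hit0 H m) : ℝ) ≤
          ∑ m ∈ (Ioc a (a + w)).filter (fun m => ¬ (1 - ε) * τ ≤ (#(hit0 H m) : ℝ)), (1 - ε) * τ :=
        sum_le_sum fun m hm => (not_le.1 (mem_filter.1 hm).2).le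
      rw [sum_const, nsmul_eq_mul] at h3
      refine h3.trans (mul_le_mul_of_nonneg_right ?_ (mul_nonneg (by linarith) hτ0.le))
      have h4 := card_filter_le (Ioc a (a + w)) (fun m => ¬ (1 - ε) * τ ≤ (#(hit0 H m) : ℝ))
      rw [Nat.card_Ioc, Nat.add_sub_cancel_left] at h4
      exact_mod_cast h4
    rw [← hG] at h1
    have h5 : (w : ℝ) * ((1 - ε) * τ) ≤ X * ((1 - ε) * τ) :=
      mul_le_mul_of_nonneg_right (by linarith) (mul_nonneg (by linarith) hτ0.le)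
    linarith
  have hCS : (∑ m ∈ G, (#(hit0 H m) : ℝ)) ^ 2 ≤ #G * ∑ m ∈ G, (#(hit0 H m) : ℝ) ^ 2 :=
    sq_sum_le_card_mul_sum_sq
  have hsec : ∑ m ∈ G, (#(hit0 H m) : ℝ) ^ 2 ≤ (1 + 4 * C) * τ ^ 2 * X := by
    have h1 : ∑ m ∈ G, (#(hit0 H m) : ℝ) ^ 2 ≤ ∑ m ∈ Ioc a (a + w), (#(hit0 H m) : ℝ) ^ 2 :=
      sum_le_sum_of_subset_of_nonneg (filter_subset _ _) fun _ _ _ => by positivity
    refine h1.trans ((hB a H w hu0w hHw).trans ?_)
    have h2 : C * (H : ℝ) ^ 2 * w / Real.log w ^ 2 ≤ C * (H : ℝ) ^ 2 * w / (Λ / 2) ^ 2 := by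
      apply div_le_div_of_nonneg_left (by positivity) (by positivity)
      exact pow_le_pow_left₀ (by positivity) hlogw 2
    have h4 : C * (H : ℝ) ^ 2 * w / (Λ / 2) ^ 2 = 4 * C * τ ^ 2 * w := by
      rw [hτ]
      field_simp
      ring
    have h5 : 1 ≤ τ ^ 2 := one_le_pow₀ hτ1
    have h6 : (w : ℝ) ≤ X := by linarith
    have h7 : 4 * C * τ ^ 2 * w ≤ 4 * C * τ ^ 2 * X := mul_le_mul_of_nonneg_left h6 (by positivity)
    nlinarith
  have hfin : (ε / 2 * τ * X) ^ 2 ≤ #G * ((1 + 4 * C) * τ ^ 2 * X) := by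
    calc (ε / 2 * τ * X) ^ 2 ≤ (∑ m ∈ G, (#(hit0 H m) : ℝ)) ^ 2 := pow_le_pow_left₀ (by positivity) hlow 2
      _ ≤ _ := hCS
      _ ≤ _ := mul_le_mul_of_nonneg_left hsec (Nat.cast_nonneg _)
  have h1 : (ε / 2 * τ * X) ^ 2 = 1 / (4 * (1 + 4 * C)) * ε ^ 2 * X * ((1 + 4 * C) * τ ^ 2 * X) := by
    field_simp
    ring
  rw [h1] at hfin
  exact le_of_mul_le_mul_right hfin (by positivity)

end Pool.Agent.X100.PB
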